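import Pool.Agent.H88.B2.Targets

/-!
Elementary facts on the weights of thickened planks (MP_ee74d2_an).
-/

set_option autoImplicit false

namespace Pool.Agent.H1.B2.WWE

open MeasureTheory Set
open Pool.Agent.H83.G
open Pool.Agent.H88.B2
open scoped ENNReal NNReal RealInnerProductSpace

theorem inv_pow_mono {a b : ℝ} (ha : 0 ≤ a) (hab : a ≤ b) (N : ℕ) :
    ((1 + b) ^ N)⁻¹ ≤ ((1 + a) ^ N)⁻¹ := by
  apply inv_anti₀ (by positivity)
  gcongr

theorem pf_WWE : T_WWE := by
  intro m N R δ W hR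
  have hRδ : 0 < R ^ δ := Real.rpow_pos_of_pos hR δ
  refine ⟨?_, ?_, ?_, ?_, ?_⟩
  · intro w z
    unfold ww
    refine ⟨by positivity, ?_⟩
    have h1 : ((1 + |(R ^ δ / w) * (fc R δ W.1 z - zc W.2).1|) ^ N)⁻¹ ≤ 1 :=
      inv_le_one_of_one_le₀ (one_le_pow₀ (by linarith [abs_nonneg ((R ^ δ / w) *
        (fc R δ W.1 z - zc W.2).1)]))
    have h2 : ((1 + ‖(fc R δ W.1 z - zc W.2).2‖) ^ N)⁻¹ ≤ 1 :=
      inv_le_one_of_one_le₀ (one_le_pow₀ (by linarith [norm_nonneg (fc R δ W.1 z - zc W.2).2]))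
    exact mul_le_one₀ h1 (by positivity) h2
  · intro w w' z hw hww
    unfold ww
    refine mul_le_mul_of_nonneg_right (inv_pow_mono (abs_nonneg _) ?_ N) (by positivity)
    have hw' : 0 < w' := by linarith
    rw [abs_mul, abs_mul, abs_of_pos (div_pos hRδ hw'), abs_of_pos (div_pos hRδ hw)]
    gcongr
  · intro w
    unfold ww fc Lo
    refine Continuous.mul (Continuous.inv₀ ?_ fun z => ?_) (Continuous.inv₀ ?_ fun z => ?_)
    · fun_prop
    · positivity
    · fun_prop
    · positivity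
  · intro N' w z hN
    unfold ww
    refine mul_le_mul ?_ ?_ (by positivity) (by positivity)
    · exact inv_anti₀ (by positivity) (pow_le_pow_right₀ (by linarith [abs_nonneg ((R ^ δ / w) *
        (fc R δ W.1 z - zc W.2).1)]) hN)
    · exact inv_anti₀ (by positivity)
        (pow_le_pow_right₀ (by linarith [norm_nonneg (fc R δ W.1 z - zc W.2).2]) hN)
  · intro z
    unfold ww wt
    rw [div_self hRδ.ne', one_mul]
    set d := fc R δ W.1 z - zc W.2 with hd
    have h1 : |d.1| ≤ ‖d‖ := norm_fst_le d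
    have h2 : ‖d.2‖ ≤ ‖d‖ := norm_snd_le d
    rw [← mul_inv]
    constructor
    · apply inv_anti₀ (by positivity)
      rw [two_mul, pow_add]
      gcongr
    · apply inv_anti₀ (by positivity)
      rw [Prod.norm_def]
      rcases max_choice ‖d.1‖ ‖d.2‖ with h | h
      · rw [h, Real.norm_eq_abs]
        exact le_mul_of_one_le_right (by positivity) (one_le_pow₀ (by linarith [norm_nonneg d.2]))
      · rw [h]
        exact le_mul_of_one_le_left (by positivity) (one_le_pow₀ (by linarith [abs_nonneg d.1]))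

end Pool.Agent.H1.B2.WWE
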